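import Pool.Agent.Q39.EB.Main

/-!
# MP_ca614b_pr: the `g₃` term of the EBLUP MSPE in the crossed random effects model

The definitions (incidence matrix `Zm`, `Gm`, `Vm`, BLUP `blup`, restricted log-likelihood `reml`,
partial derivatives `pd`, `Amat`, `hAb`, `g3`, laws `IsLaw` and the model `IsModel`) are in
`Pool.Agent.Q39.EB.Defs`; `yy` is the array `μ + u_i + v_j + e_ij` (in `Pool.Agent.Q39.EB.Exp`).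
-/

namespace Pool.Agent.Results.MP_ca614b_pr.GThreeNegligible

open MeasureTheory ProbabilityTheory Filter Topology Pool.Agent.Q39.EB

/-- The fourth moments `(κ₀, κ₁, κ₂)`. -/
noncomputable def kappa (F₀ F₁ F₂ : Measure ℝ) : Fin 3 → ℝ :=
  ![∫ x, x ^ 4 ∂F₀, ∫ x, x ^ 4 ∂F₁, ∫ x, x ^ 4 ∂F₂]

theorem result :
    (∀ (F₀ F₁ F₂ : Measure ℝ) (θ : Fin 3 → ℝ), (∀ k, 0 < θ k) →
      IsLaw F₀ (θ 0) → IsLaw F₁ (θ 1) → IsLaw F₂ (θ 2) → ∀ C : ℝ,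
      ∃ K : ℝ, ∀ m₁ m₂ : ℕ, 2 ≤ m₁ → 2 ≤ m₂ →
        ∀ (Ω : Type) [MeasurableSpace Ω] (P : Measure Ω) [IsProbabilityMeasure P]
          (u : Fin m₁ → Ω → ℝ) (v : Fin m₂ → Ω → ℝ) (e : Fin m₁ × Fin m₂ → Ω → ℝ),
          IsModel P F₀ F₁ F₂ u v e → ∀ (μ a₀ : ℝ) (a₁ : Fin m₁ → ℝ) (a₂ : Fin m₂ → ℝ),
          |a₀| + √(∑ i, a₁ i ^ 2) + √(∑ j, a₂ j ^ 2) ≤ C →
          Integrable (fun ω => (hAb P (yy μ u v e) θ a₀ a₁ a₂ ω) ^ 2) P ∧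
          g3 P (yy μ u v e) θ a₀ a₁ a₂ ≤ K / (min m₁ m₂ : ℝ) ^ 2) ∧
    (∃ s : (Fin 3 → ℝ) → (Fin 3 → ℝ) → (m₁ m₂ : ℕ) → ℝ → (Fin m₁ → ℝ) → (Fin m₂ → ℝ) → ℝ,
      ∀ (F₀ F₁ F₂ : Measure ℝ) (θ : Fin 3 → ℝ), (∀ k, 0 < θ k) →
        IsLaw F₀ (θ 0) → IsLaw F₁ (θ 1) → IsLaw F₂ (θ 2) → ∀ (C μ : ℝ) (m₁ m₂ : ℕ → ℕ),
        Tendsto (fun n => min (m₁ n) (m₂ n)) atTop atTop →
        ∀ (Ω : ℕ → Type) [∀ n, MeasurableSpace (Ω n)] (P : ∀ n, Measure (Ω n))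
          [∀ n, IsProbabilityMeasure (P n)] (u : ∀ n, Fin (m₁ n) → Ω n → ℝ)
          (v : ∀ n, Fin (m₂ n) → Ω n → ℝ) (e : ∀ n, Fin (m₁ n) × Fin (m₂ n) → Ω n → ℝ),
          (∀ n, IsModel (P n) F₀ F₁ F₂ (u n) (v n) (e n)) →
        ∀ (a₀ : ℕ → ℝ) (a₁ : ∀ n, Fin (m₁ n) → ℝ) (a₂ : ∀ n, Fin (m₂ n) → ℝ),
          (∀ n, |a₀ n| + √(∑ i, a₁ n i ^ 2) + √(∑ j, a₂ n j ^ 2) ≤ C) →
          Tendsto (fun n => (min (m₁ n) (m₂ n) : ℝ) *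
            |g3 (P n) (yy μ (u n) (v n) (e n)) θ (a₀ n) (a₁ n) (a₂ n)
              - s θ (kappa F₀ F₁ F₂) (m₁ n) (m₂ n) (a₀ n) (a₁ n) (a₂ n)|) atTop (𝓝 0)) := by
  have main : ∀ (F₀ F₁ F₂ : Measure ℝ) (θ : Fin 3 → ℝ), (∀ k, 0 < θ k) →
      IsLaw F₀ (θ 0) → IsLaw F₁ (θ 1) → IsLaw F₂ (θ 2) → ∀ C : ℝ,
      ∃ K : ℝ, ∀ m₁ m₂ : ℕ, 2 ≤ m₁ → 2 ≤ m₂ →
        ∀ (Ω : Type) [MeasurableSpace Ω] (P : Measure Ω) [IsProbabilityMeasure P]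
          (u : Fin m₁ → Ω → ℝ) (v : Fin m₂ → Ω → ℝ) (e : Fin m₁ × Fin m₂ → Ω → ℝ),
          IsModel P F₀ F₁ F₂ u v e → ∀ (μ a₀ : ℝ) (a₁ : Fin m₁ → ℝ) (a₂ : Fin m₂ → ℝ),
          |a₀| + √(∑ i, a₁ i ^ 2) + √(∑ j, a₂ j ^ 2) ≤ C →
          Integrable (fun ω => (hAb P (yy μ u v e) θ a₀ a₁ a₂ ω) ^ 2) P ∧
          g3 P (yy μ u v e) θ a₀ a₁ a₂ ≤ K / (min m₁ m₂ : ℝ) ^ 2 := by
    intro F₀ F₁ F₂ θ hθ h0 h1 h2 C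
    obtain ⟨K, hK0, hK⟩ := main_bound hθ h0 h1 h2 C
    refine ⟨2 * K, fun m₁ m₂ hm1 hm2 Ω _ P _ u v e hM μ a₀ a₁ a₂ ha => ?_⟩
    have s1 := Real.sqrt_nonneg (∑ i, a₁ i ^ 2)
    have s2 := Real.sqrt_nonneg (∑ j, a₂ j ^ 2)
    have s0 := abs_nonneg a₀
    have n1 : 0 ≤ ∑ i, a₁ i ^ 2 := Finset.sum_nonneg fun _ _ => sq_nonneg _
    have n2 : 0 ≤ ∑ j, a₂ j ^ 2 := Finset.sum_nonneg fun _ _ => sq_nonneg _
    have b1 : ∑ i, a₁ i ^ 2 ≤ C ^ 2 := by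
      rw [← Real.sq_sqrt n1]
      have : √(∑ i, a₁ i ^ 2) ≤ C := by linarith
      gcongr
    have b2 : ∑ j, a₂ j ^ 2 ≤ C ^ 2 := by
      rw [← Real.sq_sqrt n2]
      have : √(∑ j, a₂ j ^ 2) ≤ C := by linarith
      gcongr
    obtain ⟨hI, hb⟩ := hK m₁ m₂ hm1 hm2 Ω P u v e hM μ a₀ a₁ a₂ b1 b2
    refine ⟨hI, hb.trans ?_⟩
    have p1 : (0 : ℝ) < m₁ := by
      have : 0 < m₁ := by omega
      exact_mod_cast this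
    have p2 : (0 : ℝ) < m₂ := by
      have : 0 < m₂ := by omega
      exact_mod_cast this
    have p3 : (0 : ℝ) < min (m₁ : ℝ) m₂ := lt_min p1 p2
    have c1 : 1 / (m₁ : ℝ) ^ 2 ≤ 1 / (min (m₁ : ℝ) m₂) ^ 2 := by
      apply one_div_le_one_div_of_le (by positivity)
      have := min_le_left (m₁ : ℝ) m₂
      gcongr
    have c2 : 1 / (m₂ : ℝ) ^ 2 ≤ 1 / (min (m₁ : ℝ) m₂) ^ 2 := by
      apply one_div_le_one_div_of_le (by positivity)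
      have := min_le_right (m₁ : ℝ) m₂
      gcongr
    calc K * (1 / (m₁ : ℝ) ^ 2 + 1 / (m₂ : ℝ) ^ 2)
        ≤ K * (1 / (min (m₁ : ℝ) m₂) ^ 2 + 1 / (min (m₁ : ℝ) m₂) ^ 2) :=
          mul_le_mul_of_nonneg_left (add_le_add c1 c2) hK0
      _ = 2 * K / (min (m₁ : ℝ) m₂) ^ 2 := by ring
  refine ⟨main, fun _ _ _ _ _ _ _ => 0, ?_⟩
  intro F₀ F₁ F₂ θ hθ h0 h1 h2 C μ m₁ m₂ hm Ω _ P _ u v e hM a₀ a₁ a₂ ha
  obtain ⟨K, hK⟩ := main F₀ F₁ F₂ θ hθ h0 h1 h2 C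
  have hmr : Tendsto (fun n => (min (m₁ n) (m₂ n) : ℝ)) atTop atTop := by
    have := tendsto_natCast_atTop_atTop (R := ℝ).comp hm
    refine this.congr fun n => ?_
    simp
  have hK0 : Tendsto (fun n => K / (min (m₁ n) (m₂ n) : ℝ)) atTop (𝓝 0) :=
    hmr.const_div_atTop K
  have hev : ∀ᶠ n in atTop, 2 ≤ min (m₁ n) (m₂ n) := hm.eventually_ge_atTop 2
  refine tendsto_of_tendsto_of_tendsto_of_le_of_le' tendsto_const_nhds hK0 ?_ ?_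
  · filter_upwards with n
    have : (0 : ℝ) ≤ min (m₁ n : ℝ) (m₂ n) := le_min (Nat.cast_nonneg _) (Nat.cast_nonneg _)
    positivity
  · filter_upwards [hev] with n hn
    have q1 : 2 ≤ m₁ n := hn.trans (min_le_left _ _)
    have q2 : 2 ≤ m₂ n := hn.trans (min_le_right _ _)
    have hb := (hK (m₁ n) (m₂ n) q1 q2 (Ω n) (P n) (u n) (v n) (e n) (hM n) μ (a₀ n) (a₁ n) (a₂ n)
      (ha n)).2
    have hg0 : 0 ≤ g3 (P n) (yy μ (u n) (v n) (e n)) θ (a₀ n) (a₁ n) (a₂ n) :=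
      integral_nonneg fun ω => sq_nonneg _
    have p3 : (0 : ℝ) < min (m₁ n : ℝ) (m₂ n) := by
      apply lt_min
      · have : 0 < m₁ n := by omega
        exact_mod_cast this
      · have : 0 < m₂ n := by omega
        exact_mod_cast this
    rw [sub_zero, abs_of_nonneg hg0]
    calc (min (m₁ n) (m₂ n) : ℝ) * g3 (P n) (yy μ (u n) (v n) (e n)) θ (a₀ n) (a₁ n) (a₂ n)
        ≤ (min (m₁ n) (m₂ n) : ℝ) * (K / (min (m₁ n) (m₂ n) : ℝ) ^ 2) :=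
          mul_le_mul_of_nonneg_left hb p3.le
      _ = K / (min (m₁ n) (m₂ n) : ℝ) := by
          field_simp

end Pool.Agent.Results.MP_ca614b_pr.GThreeNegligible
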